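import Pool.Agent.N119.PS.Stm

set_option autoImplicit false

namespace Pool.Agent.N578.PSC.BUS

open Pool.Agent.N119.PS Pool.Agent.H67R4.SR Pool.Agent.H67R3.FSR Filter Topology

variable {N : ℕ}

theorem ray_head (ζ : Bd N) (j : ℕ) : (ray ζ (1 + j)).toWord.head? = some (ζ.1 1) := by
  obtain ⟨t, ht⟩ := ray_pfx ζ 1 j
  have h1 : (ray ζ 1).toWord = [ζ.1 1] := by
    have := ray_word ζ 0
    simpa [ray] using this
  rw [ht, h1]
  rfl

theorem reduced_append (ζ : Bd N) (w : FreeGroup (Fin N))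
    (hw : w.toWord.getLast? ≠ some (inv' (ζ.1 1))) (n : ℕ) :
    FreeGroup.IsReduced (w.toWord ++ (ray ζ n).toWord) := by
  rcases Nat.eq_zero_or_pos n with h0 | h0
  · subst h0
    simp only [ray, FreeGroup.toWord_one, List.append_nil]
    exact FreeGroup.isReduced_toWord
  · obtain ⟨j, rfl⟩ : ∃ j, n = 1 + j := ⟨n - 1, by omega⟩
    unfold FreeGroup.IsReduced
    rw [List.isChain_append]
    refine ⟨FreeGroup.isReduced_toWord, FreeGroup.isReduced_toWord, ?_⟩
    intro y hy z hz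
    rw [ray_head] at hz
    have hz' : ζ.1 1 = z := by simpa using hz
    subst hz'
    rw [reduced_iff]
    intro h
    apply hw
    rw [h, inv'_inv']
    exact hy

theorem t (h : Pool.Agent.N119.PS.S_RAY) : Pool.Agent.N119.PS.S_BUS := by
  intro N A hA x C hC
  obtain ⟨h1, h2⟩ := h N A hA x C hC
  refine ⟨fun ζ w hw => ?_, fun q hq => ?_⟩
  · have key : ∀ n, dist (w⁻¹ • x) (ray ζ n • x) - dist x (ray ζ n • x) =
        (lenFn A x).L w - 2 * G (lenFn A x) w⁻¹ (ray ζ n) := by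
      intro n
      have e1 : dist (w⁻¹ • x) (ray ζ n • x) = (lenFn A x).L (w * ray ζ n) := by
        rw [lenFn_L, ← A.isometric w, smul_inv_smul, mul_smul]
      have e2 : dist x (ray ζ n • x) = (lenFn A x).L (ray ζ n) := by rw [lenFn_L]
      rw [e1, e2, L_mul]
      ring
    obtain ⟨n0, hn0⟩ := h1 ζ w⁻¹
    have hlim : Tendsto (fun n : ℕ => dist (w⁻¹ • x) (ray ζ n • x) - dist x (ray ζ n • x)) atTop
        (𝓝 (dist (w⁻¹ • x) (ray ζ n0 • x) - dist x (ray ζ n0 • x))) := by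
      refine tendsto_const_nhds.congr' ?_
      filter_upwards [eventually_ge_atTop n0] with n hn
      rw [key, key, hn0 n hn]
    unfold buse
    rw [hlim.limUnder_eq]
    have h3 := hC.2 w (ray ζ n0) (reduced_append ζ w hw n0)
    have e1 : dist (w⁻¹ • x) (ray ζ n0 • x) = (lenFn A x).L (w * ray ζ n0) := by
      rw [lenFn_L, ← A.isometric w, smul_inv_smul, mul_smul]
    have e2 : dist x (ray ζ n0 • x) = (lenFn A x).L (ray ζ n0) := by rw [lenFn_L]
    rw [e1, e2]
    linarith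
  · obtain ⟨h3, n0, hn0⟩ := h2 q.1.1 q.1.2 hq
    have hlim : Tendsto (fun n : ℕ => gpT x (ray q.1.1 n • x) (ray q.1.2 n • x)) atTop
        (𝓝 (gpT x (ray q.1.1 n0 • x) (ray q.1.2 n0 • x))) := by
      refine tendsto_const_nhds.congr' ?_
      filter_upwards [eventually_ge_atTop n0] with n hn
      rw [← G_lenFn, ← G_lenFn, hn0 n hn]
    unfold gpBd
    rw [hlim.limUnder_eq, ← G_lenFn]
    exact h3 n0

end Pool.Agent.N578.PSC.BUS
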