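import Pool.Agent.N119.PS.Stm

set_option autoImplicit false

namespace Pool.Agent.N578.PSC.ENT

open Finset

theorem t : Pool.Agent.N119.PS.S_ENT := by
  intro ι s m K L h h' D P hD hP hm hmD hsum hM
  obtain ⟨M, hMdef⟩ : ∃ M : ℝ, M = ∑ i ∈ s, m i := ⟨_, rfl⟩
  rw [← hMdef] at hM ⊢
  have h1 : ∀ i ∈ s, -h' * (m i * L i) - m i * Real.log (m i) ≤
      m i * (Real.log P - Real.log M) + Real.exp (-h' * L i) * (M / P) - m i := by
    intro i hi
    rcases (hm i hi).eq_or_lt with h0 | h0
    · rw [← h0]
      simp only [zero_mul, mul_zero, sub_zero, zero_add]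
      positivity
    · obtain ⟨y, hy⟩ : ∃ y : ℝ, y = Real.exp (-h' * L i) * (M / P) / m i := ⟨_, rfl⟩
      have hy0 : 0 < y := by rw [hy]; positivity
      have h2 := Real.log_le_sub_one_of_pos hy0
      have h3 : Real.log y = -h' * L i + (Real.log M - Real.log P) - Real.log (m i) := by
        rw [hy, Real.log_div (by positivity) h0.ne', Real.log_mul (by positivity) (by positivity),
          Real.log_exp, Real.log_div hM.ne' hP.ne']
      rw [h3] at h2
      have h4 : m i * y = Real.exp (-h' * L i) * (M / P) := by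
        rw [hy]; field_simp
      have h5 := mul_le_mul_of_nonneg_left h2 h0.le
      have h6 : m i * (y - 1) = Real.exp (-h' * L i) * (M / P) - m i := by rw [← h4]; ring
      rw [h6] at h5
      nlinarith
  have h2 : ∀ i ∈ s, h * (m i * K i) ≤ m i * Real.log D - m i * Real.log (m i) := by
    intro i hi
    rcases (hm i hi).eq_or_lt with h0 | h0
    · rw [← h0]; simp
    · have h3 : Real.log (m i) ≤ Real.log D + -h * K i := by
        have := Real.log_le_log h0 (hmD i hi)
        rwa [Real.log_mul hD.ne' (Real.exp_pos _).ne', Real.log_exp] at this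
      nlinarith
  have h3 := Finset.sum_le_sum h1
  have h4 := Finset.sum_le_sum h2
  rw [sum_sub_distrib, sum_sub_distrib, sum_add_distrib, ← mul_sum, ← sum_mul, ← sum_mul, ← hMdef] at h3
  rw [sum_sub_distrib, ← mul_sum, ← sum_mul, ← hMdef] at h4
  have h5 : (∑ i ∈ s, Real.exp (-h' * L i)) * (M / P) ≤ M := by
    calc (∑ i ∈ s, Real.exp (-h' * L i)) * (M / P) ≤ P * (M / P) :=
          mul_le_mul_of_nonneg_right hsum (by positivity)
      _ = M := by field_simp
  nlinarith

end Pool.Agent.N578.PSC.ENT
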